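import Mathlib
import Pool.Agent.X119.BlockOrB

set_option autoImplicit false

namespace Pool.Agent.Results.MP_c2536d_co.OrOrAnd

open MeasureTheory

/-- The sign `±1` of a Boolean value (`true` is `1`, `false` is `-1`). -/
def sgn (b : Bool) : ℝ := if b = true then 1 else -1

/-- Expectation over the uniform measure on the cube. -/
noncomputable def expect {m : ℕ} (g : (Fin m → Bool) → ℝ) : ℝ := (∑ x, g x) / 2 ^ m

/-- The character `χ_S(x) = ∏_{i ∈ S} x_i`. -/
noncomputable def chi {m : ℕ} (S : Finset (Fin m)) (x : Fin m → Bool) : ℝ := ∏ i ∈ S, sgn (x i)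

/-- The Fourier-Walsh coefficient of a Boolean function at `S`. -/
noncomputable def coef {m : ℕ} (f : (Fin m → Bool) → Bool) (S : Finset (Fin m)) : ℝ :=
  expect (fun x => sgn (f x) * chi S x)

/-- `f` is `ε`-concentrated on the blocks `I_j = {i | b i = j}`. -/
def Concentrated {m n : ℕ} (b : Fin m → Fin n) (ε : ℝ) (f : (Fin m → Bool) → Bool) : Prop :=
  1 - ε ≤ ∑ S ∈ (Finset.univ : Finset (Finset (Fin m))).filter (fun S => ∃ j, ∀ i ∈ S, b i = j),
    (coef f S) ^ 2

/-- The restriction of a point of the cube to the block `j`. -/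
def block {m n : ℕ} (b : Fin m → Fin n) (j : Fin n) (x : Fin m → Bool) : {i // b i = j} → Bool :=
  fun i => x i

/-- The squared `L²` distance of two Boolean functions. -/
noncomputable def dist2 {m : ℕ} (f g : (Fin m → Bool) → Bool) : ℝ :=
  expect (fun x => (sgn (f x) - sgn (g x)) ^ 2)

/-! ### Fourier analysis -/

lemma sgn_sq (b : Bool) : sgn b * sgn b = 1 := by
  unfold sgn; cases b <;> norm_num

lemma expect_add {m : ℕ} (g h : (Fin m → Bool) → ℝ) :
    expect (fun x => g x + h x) = expect g + expect h := by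
  unfold expect
  rw [Finset.sum_add_distrib, add_div]

lemma expect_smul {m : ℕ} (c : ℝ) (g : (Fin m → Bool) → ℝ) :
    expect (fun x => c * g x) = c * expect g := by
  unfold expect
  rw [← Finset.mul_sum, mul_div_assoc]

lemma expect_sum {m : ℕ} {α : Type*} (s : Finset α) (g : α → (Fin m → Bool) → ℝ) :
    expect (fun x => ∑ a ∈ s, g a x) = ∑ a ∈ s, expect (g a) := by
  unfold expect
  rw [Finset.sum_comm, Finset.sum_div]

lemma expect_mono {m : ℕ} (g h : (Fin m → Bool) → ℝ) (hgh : ∀ x, g x ≤ h x) :
    expect g ≤ expect h := by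
  unfold expect
  exact div_le_div_of_nonneg_right (Finset.sum_le_sum fun x _ => hgh x) (by positivity)

lemma expect_const {m : ℕ} (c : ℝ) : expect (fun _ : Fin m → Bool => c) = c := by
  unfold expect
  rw [Finset.sum_const, Finset.card_univ, Fintype.card_fun, Fintype.card_bool, Fintype.card_fin,
    nsmul_eq_mul]
  push_cast
  field_simp

lemma chi_orth {m : ℕ} (S T : Finset (Fin m)) :
    expect (fun x => chi S x * chi T x) = if S = T then 1 else 0 := by
  classical
  unfold expect chi
  have h1 : ∀ x : Fin m → Bool, (∏ i ∈ S, sgn (x i)) * ∏ i ∈ T, sgn (x i) =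
      ∏ i, ((if i ∈ S then sgn (x i) else 1) * (if i ∈ T then sgn (x i) else 1)) := by
    intro x
    rw [Finset.prod_mul_distrib, Finset.prod_ite_mem, Finset.prod_ite_mem, Finset.univ_inter,
      Finset.univ_inter]
  simp only [h1]
  have h2 : ∑ x : Fin m → Bool, ∏ i, ((if i ∈ S then sgn (x i) else 1) *
      (if i ∈ T then sgn (x i) else 1)) = ∏ i : Fin m, ∑ c : Bool,
      ((if i ∈ S then sgn c else 1) * (if i ∈ T then sgn c else 1)) := by
    rw [Finset.prod_univ_sum, Fintype.piFinset_univ]
  rw [h2]
  by_cases hST : S = T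
  · subst hST
    rw [if_pos rfl]
    have h3 : ∀ i : Fin m, ∑ c : Bool, ((if i ∈ S then sgn c else 1) * (if i ∈ S then sgn c else 1)) =
        (2 : ℝ) := by
      intro i
      rw [Fintype.sum_bool]
      split_ifs
      · rw [sgn_sq, sgn_sq]; norm_num
      · norm_num
    rw [Finset.prod_congr rfl (fun i _ => h3 i), Finset.prod_const, Finset.card_univ,
      Fintype.card_fin]
    field_simp
  · rw [if_neg hST]
    obtain ⟨i, hi⟩ : ∃ i, ¬ (i ∈ S ↔ i ∈ T) := by
      by_contra hcon
      push Not at hcon
      exact hST (Finset.ext hcon)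
    rw [Finset.prod_eq_zero (Finset.mem_univ i), zero_div]
    rw [Fintype.sum_bool]
    by_cases h4 : i ∈ S
    · have h5 : i ∉ T := fun h => hi ⟨fun _ => h, fun _ => h4⟩
      rw [if_pos h4, if_neg h5, if_pos h4, if_neg h5]
      unfold sgn; norm_num
    · have h5 : i ∈ T := by
        by_contra h
        exact hi ⟨fun h' => absurd h' h4, fun h' => absurd h' h⟩
      rw [if_neg h4, if_pos h5, if_neg h4, if_pos h5]
      unfold sgn; norm_num

lemma dist_to_proj {m : ℕ} (f : (Fin m → Bool) → Bool) (G : Finset (Finset (Fin m))) :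
    expect (fun x => (sgn (f x) - ∑ S ∈ G, coef f S * chi S x) ^ 2) =
      1 - ∑ S ∈ G, (coef f S) ^ 2 := by
  classical
  have h1 : ∀ x, (sgn (f x) - ∑ S ∈ G, coef f S * chi S x) ^ 2 =
      1 + (-2 * (∑ S ∈ G, coef f S * (sgn (f x) * chi S x)) +
        ∑ S ∈ G, ∑ T ∈ G, coef f S * (coef f T * (chi S x * chi T x))) := by
    intro x
    have h2 : (∑ S ∈ G, coef f S * chi S x) ^ 2 =
        ∑ S ∈ G, ∑ T ∈ G, coef f S * (coef f T * (chi S x * chi T x)) := by
      rw [sq, Finset.sum_mul_sum]
      refine Finset.sum_congr rfl fun S _ => Finset.sum_congr rfl fun T _ => ?_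
      ring
    have h3 : sgn (f x) * (∑ S ∈ G, coef f S * chi S x) =
        ∑ S ∈ G, coef f S * (sgn (f x) * chi S x) := by
      rw [Finset.mul_sum]
      refine Finset.sum_congr rfl fun S _ => ?_
      ring
    rw [← h2, ← h3, sub_sq, sq (sgn (f x)), sgn_sq]
    ring
  simp only [h1]
  rw [expect_add, expect_const, expect_add, expect_smul, expect_sum, expect_sum]
  have h4 : ∀ S, expect (fun x => coef f S * (sgn (f x) * chi S x)) = coef f S ^ 2 := by
    intro S
    rw [expect_smul, sq]; rfl
  have h5 : ∀ S ∈ G, expect (fun x => ∑ T ∈ G, coef f S * (coef f T * (chi S x * chi T x))) =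
      coef f S ^ 2 := by
    intro S hS
    rw [expect_sum]
    have h6 : ∀ T, expect (fun x => coef f S * (coef f T * (chi S x * chi T x))) =
        if S = T then coef f S * coef f T else 0 := by
      intro T
      rw [expect_smul, expect_smul, chi_orth]
      split_ifs <;> simp
    rw [Finset.sum_congr rfl (fun T _ => h6 T), Finset.sum_ite_eq, if_pos hS, sq]
  rw [Finset.sum_congr rfl (fun S _ => h4 S), Finset.sum_congr rfl h5]
  ring

/-! ### The cube as a product of blocks -/

variable {m n : ℕ} (b : Fin m → Fin n)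

/-- the cube as a product over the blocks -/
def toBlocks : (Fin m → Bool) ≃ (∀ j : Fin n, {i // b i = j} → Bool) where
  toFun x := fun j => block b j x
  invFun y := fun i => y (b i) ⟨i, rfl⟩
  left_inv x := rfl
  right_inv y := by
    funext j ⟨i, hi⟩
    subst hi
    rfl

/-- uniform measure on a block -/
noncomputable def mu (j : Fin n) : Measure ({i // b i = j} → Bool) :=
  (PMF.uniformOfFintype ({i // b i = j} → Bool)).toMeasure

instance (j : Fin n) : IsProbabilityMeasure (mu b j) := by unfold mu; infer_instance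

lemma integral_pi (g : (∀ j : Fin n, {i // b i = j} → Bool) → ℝ) :
    ∫ y, g y ∂(Measure.pi (mu b)) = expect (fun x => g (toBlocks b x)) := by
  classical
  set c : ℝ := ∏ j, ((Fintype.card ({i // b i = j} → Bool) : ℝ))⁻¹ with hc
  have hsing : ∀ y, (Measure.pi (mu b)).real {y} = c := by
    intro y
    rw [measureReal_def, Measure.pi_singleton, ENNReal.toReal_prod, hc]
    refine Finset.prod_congr rfl fun j _ => ?_
    unfold mu
    rw [PMF.toMeasure_apply_singleton _ _ (MeasurableSet.of_discrete), PMF.uniformOfFintype_apply,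
      ENNReal.toReal_inv, ENNReal.toReal_natCast]
  have hcard : Fintype.card (∀ j : Fin n, {i // b i = j} → Bool) = 2 ^ m := by
    rw [← Fintype.card_congr (toBlocks b), Fintype.card_fun, Fintype.card_bool, Fintype.card_fin]
  have hone : c * 2 ^ m = 1 := by
    have h1 : ∫ y, (1:ℝ) ∂(Measure.pi (mu b)) = 1 := by simp
    rw [integral_fintype Integrable.of_finite] at h1
    simp only [hsing, smul_eq_mul, mul_one] at h1
    rw [Finset.sum_const, Finset.card_univ, hcard, nsmul_eq_mul] at h1
    push_cast at h1
    linarith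
  have hc' : c = 1 / 2 ^ m := by
    field_simp
    linarith
  rw [integral_fintype Integrable.of_finite]
  simp only [hsing, smul_eq_mul]
  unfold expect
  rw [← Finset.mul_sum, ← Equiv.sum_comp (toBlocks b), hc']
  ring

/-- extension of a point of a block -/
def ext (j : Fin n) (y : {i // b i = j} → Bool) : Fin m → Bool :=
  fun i => if h : b i = j then y ⟨i, h⟩ else true

lemma chi_ext (j : Fin n) (x : Fin m → Bool) (S : Finset (Fin m)) (hS : ∀ i ∈ S, b i = j) :
    chi S (ext b j (block b j x)) = chi S x := by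
  unfold chi
  refine Finset.prod_congr rfl fun i hi => ?_
  unfold ext
  rw [dif_pos (hS i hi)]
  rfl

lemma sum_split (hn : 0 < n) (a : Finset (Fin m) → ℝ) :
    ∑ S ∈ (Finset.univ : Finset (Finset (Fin m))).filter (fun S => ∃ j, ∀ i ∈ S, b i = j), a S =
      a ∅ + ∑ j : Fin n, ∑ S ∈ (Finset.univ : Finset (Finset (Fin m))).filter
        (fun S => S.Nonempty ∧ ∀ i ∈ S, b i = j), a S := by
  classical
  have hmem : (∅ : Finset (Fin m)) ∈
      (Finset.univ : Finset (Finset (Fin m))).filter (fun S => ∃ j, ∀ i ∈ S, b i = j) := by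
    rw [Finset.mem_filter]
    exact ⟨Finset.mem_univ _, ⟨0, hn⟩, by simp⟩
  rw [← Finset.add_sum_erase _ _ hmem]
  congr 1
  rw [← Finset.sum_biUnion]
  · refine Finset.sum_congr ?_ fun _ _ => rfl
    ext S
    simp only [Finset.mem_erase, Finset.mem_filter, Finset.mem_univ, true_and, Finset.mem_biUnion]
    constructor
    · rintro ⟨h1, j, h2⟩
      exact ⟨j, Finset.nonempty_iff_ne_empty.mpr h1, h2⟩
    · rintro ⟨j, h1, h2⟩
      exact ⟨Finset.nonempty_iff_ne_empty.mp h1, j, h2⟩
  · intro j _ j' _ hne
    rw [Function.onFun, Finset.disjoint_left]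
    intro S h1 h2
    rw [Finset.mem_filter] at h1 h2
    obtain ⟨i, hi⟩ := h1.2.1
    exact hne (by rw [← h1.2.2 i hi, h2.2.2 i hi])

lemma dist2_le_four {m : ℕ} (f g : (Fin m → Bool) → Bool) : dist2 f g ≤ 4 := by
  unfold dist2
  rw [← expect_const (m := m) 4]
  apply expect_mono
  intro x
  unfold sgn
  split_ifs <;> norm_num

/-- **Q1.** There is a constant `K` such that every Boolean function `ε`-concentrated on a partition
of the variables is at squared `L²` distance at most `K ε` from an OR or from an AND of Boolean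
functions of the separate blocks. -/
theorem result : ∃ K : ℝ, ∀ (m n : ℕ), 1 ≤ m → ∀ b : Fin m → Fin n, Function.Surjective b →
    ∀ ε : ℝ, 0 ≤ ε → ∀ f : (Fin m → Bool) → Bool, Concentrated b ε f →
      ∃ h : ∀ j : Fin n, ({i // b i = j} → Bool) → Bool,
        dist2 f (fun x => decide (∃ j, h j (block b j x) = true)) ≤ K * ε ∨
        dist2 f (fun x => decide (∀ j, h j (block b j x) = true)) ≤ K * ε := by
  classical
  refine ⟨400000, fun m n hm b _ ε hε f hf => ?_⟩
  have hn : 0 < n := Fin.pos (b ⟨0, hm⟩)
  rcases le_or_gt ε (1 / 100000) with hsmall | hbig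
  · -- the additive approximation
    set F : ∀ j : Fin n, ({i // b i = j} → Bool) → ℝ := fun j y =>
      ∑ S ∈ (Finset.univ : Finset (Finset (Fin m))).filter (fun S => S.Nonempty ∧ ∀ i ∈ S, b i = j),
        coef f S * chi S (ext b j y) with hF
    have hA : ∀ x, ∑ S ∈ (Finset.univ : Finset (Finset (Fin m))).filter
        (fun S => ∃ j, ∀ i ∈ S, b i = j), coef f S * chi S x =
        coef f ∅ + ∑ j, F j (toBlocks b x j) := by
      intro x
      rw [sum_split b hn]
      congr 1
      · unfold chi; simp
      · refine Finset.sum_congr rfl fun j _ => ?_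
        simp only [hF]
        refine Finset.sum_congr rfl fun S hS => ?_
        rw [Finset.mem_filter] at hS
        congr 1
        exact (chi_ext b j x S hS.2.2).symm
    have hdist := dist_to_proj f ((Finset.univ : Finset (Finset (Fin m))).filter
        (fun S => ∃ j, ∀ i ∈ S, b i = j))
    simp only [hA] at hdist
    set f₁ : (∀ j : Fin n, {i // b i = j} → Bool) → ℝ := fun y => sgn (f ((toBlocks b).symm y)) with hf₁
    have hf₁x : ∀ x, f₁ (toBlocks b x) = sgn (f x) := by
      intro x
      simp only [hf₁, Equiv.symm_apply_apply]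
    have hint : ∫ y, (f₁ y - (coef f ∅ + ∑ j, F j (y j))) ^ 2 ∂(Measure.pi (mu b)) ≤ ε := by
      rw [integral_pi]
      simp only [hf₁x]
      rw [hdist]
      unfold Concentrated at hf
      linarith
    obtain ⟨h, hh⟩ := Pool.Agent.X119.BlockOr.abstract_or (mu b) f₁ (fun y => by
      simp only [hf₁]
      unfold sgn
      split_ifs
      · exact Or.inl rfl
      · exact Or.inr rfl) (coef f ∅) F ε hε hsmall hint
    refine ⟨h, ?_⟩
    have key : ∀ (Q : (∀ j : Fin n, {i // b i = j} → Bool) → Prop) (g : (Fin m → Bool) → Bool),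
        (∀ x, g x = true ↔ Q (toBlocks b x)) →
        (Measure.pi (mu b)).real {y | ¬ (f₁ y = 1 ↔ Q y)} ≤ 300 * ε →
        dist2 f g ≤ 400000 * ε := by
      intro Q g hg hQ
      have h1 : (Measure.pi (mu b)).real {y | ¬ (f₁ y = 1 ↔ Q y)} =
          expect (fun x => Set.indicator {y | ¬ (f₁ y = 1 ↔ Q y)} (fun _ => (1:ℝ)) (toBlocks b x)) := by
        rw [← integral_pi, integral_indicator_const _ MeasurableSet.of_discrete, smul_eq_mul, mul_one]
      have h2 : dist2 f g ≤ 4 * (Measure.pi (mu b)).real {y | ¬ (f₁ y = 1 ↔ Q y)} := by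
        rw [h1, ← expect_smul]
        unfold dist2
        apply expect_mono
        intro x
        by_cases hx : f₁ (toBlocks b x) = 1 ↔ Q (toBlocks b x)
        · have hxm : toBlocks b x ∉ {y | ¬ (f₁ y = 1 ↔ Q y)} := fun h => h hx
          rw [Set.indicator_of_notMem hxm]
          rw [hf₁x, ← hg x] at hx
          have h3 : sgn (f x) = sgn (g x) := by
            unfold sgn at hx ⊢
            by_cases h4 : f x = true
            · rw [if_pos h4] at hx ⊢
              rw [if_pos (hx.mp rfl)]
            · rw [if_neg h4] at hx ⊢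
              rw [if_neg]
              intro h5
              have := hx.mpr h5
              norm_num at this
          rw [h3]; norm_num
        · have hxm : toBlocks b x ∈ {y | ¬ (f₁ y = 1 ↔ Q y)} := hx
          rw [Set.indicator_of_mem hxm]
          unfold sgn
          split_ifs <;> norm_num
      linarith
    rcases hh with hh | hh
    · left
      exact key (fun y => ∃ j, h j (y j) = true) _ (fun x => decide_eq_true_iff) hh
    · right
      exact key (fun y => ∀ j, h j (y j) = true) _ (fun x => decide_eq_true_iff) hh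
  · refine ⟨fun _ _ => false, Or.inl ?_⟩
    exact (dist2_le_four f _).trans (by linarith)

end Pool.Agent.Results.MP_c2536d_co.OrOrAnd
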